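import Mathlib
import Pool.Agent.H11.Aut4

set_option autoImplicit false

namespace H11.Aut

/-- an FA-presentation of the natural numbers with successor, over the alphabet `α` -/
structure Pres (α : Type) where
  L : Language α
  ψ : List α → ℕ
  reg : L.IsRegular
  surj : ∀ x, ∃ u ∈ L, ψ u = x
  eq : Sync fun u v => u ∈ L ∧ v ∈ L ∧ ψ u = ψ v
  succ : Sync fun u v => u ∈ L ∧ v ∈ L ∧ ψ v = ψ u + 1

/-- length of a shortest normal form of `x` -/
noncomputable def Pres.minLen {α : Type} (P : Pres α) (x : ℕ) : ℕ :=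
  sInf {k | ∃ v ∈ P.L, P.ψ v = x ∧ v.length = k}

/-- compressibility rate of `P` relative to `P0` -/
noncomputable def rate {γ α : Type} (P : Pres γ) (P0 : Pres α) (n : ℕ) : ℕ :=
  sSup {m | ∃ w ∈ P.L, w.length ≤ n ∧ m = P0.minLen (P.ψ w)}

end H11.Aut

namespace Pool.Agent.Results.MP_0022d4_lc.Yes
open H11.Aut Pool.Agent.H66.Card

theorem result (α : Type) [Finite α] (P0 : Pres α) :
    ∃ (γ : Type) (_ : Finite γ) (P : Pres γ), ∀ n, T n ≤ rate P P0 n := by
  classical
  obtain ⟨a0⟩ : Nonempty α := by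
    obtain ⟨u, -, hu⟩ := P0.surj 0
    obtain ⟨v, -, hv⟩ := P0.surj 1
    cases u with
    | cons a _ => exact ⟨a⟩
    | nil => cases v with
      | cons a _ => exact ⟨a⟩
      | nil => omega
  haveI := Fintype.ofFinite α
  haveI : Nonempty α := ⟨a0⟩
  let x0 : α × Bool := (a0, false)
  let L : List (α × Bool) → Prop := fun w => w.map Prod.fst ∈ P0.L
  let ψ : List (α × Bool) → ℕ := fun w => P0.ψ (w.map Prod.fst)
  have lift : ∀ v : List α, (v.map fun a => (a, false)).map Prod.fst = v := fun v => by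
    simp [Function.comp_def]
  have he : ∀ (ι : Type) (i j : ι),
      FS fun t : ι → List (α × Bool) => L (t i) ∧ L (t j) ∧ ψ (t i) = ψ (t j) :=
    fun ι i j => fs_map (P0.eq.fs i j) Prod.fst
  have hs : ∀ (ι : Type) (i j : ι),
      FS fun t : ι → List (α × Bool) => L (t i) ∧ L (t j) ∧ ψ (t j) = ψ (t i) + 1 :=
    fun ι i j => fs_map (P0.succ.fs i j) Prod.fst
  obtain ⟨φ, h1, h2, h3⟩ := core x0 L ψ (by
      have : 0 < Fintype.card α := Fintype.card_pos
      simp; omega) (fun x => by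
      obtain ⟨u, a, b⟩ := P0.surj x
      exact ⟨u.map fun a => (a, false), by simpa only [L, lift] using a,
        by simpa only [ψ, lift] using b⟩)
  let Ψ := Function.extend (name x0) φ 0
  have hΨ : ∀ x, Ψ (name x0 x) = φ x := fun x => (name_inj x0).extend_apply _ _ _
  have heq : Sync fun u v => u ∈ Set.range (name x0) ∧ v ∈ Set.range (name x0) ∧ Ψ u = Ψ v := by
    have := sync_name x0 (Q := fun x y => x = y) fun p q a b =>
      ((FS.const (p = q)).and (FS.all fun k => FS.eq (a k) (b k))).congr fun t => by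
        simp [funext_iff]
    convert this using 3 with u v
    constructor
    · rintro ⟨⟨x, rfl⟩, ⟨y, rfl⟩, h⟩
      rw [hΨ, hΨ] at h
      exact ⟨x, y, rfl, rfl, h1.1 h⟩
    · rintro ⟨x, y, rfl, rfl, rfl⟩
      exact ⟨⟨x, rfl⟩, ⟨x, rfl⟩, rfl⟩
  have hsu : Sync fun u v =>
      u ∈ Set.range (name x0) ∧ v ∈ Set.range (name x0) ∧ Ψ v = Ψ u + 1 := by
    have := sync_name x0 (Q := Nx (Gr x0 L ψ) pos) fun p q a b => fs_nx x0 L ψ he hs p q a b
    convert this using 3 with u v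
    constructor
    · rintro ⟨⟨x, rfl⟩, ⟨y, rfl⟩, h⟩
      rw [hΨ, hΨ] at h
      exact ⟨x, y, rfl, rfl, (h2 _ _).2 h⟩
    · rintro ⟨x, y, rfl, rfl, h⟩
      exact ⟨⟨x, rfl⟩, ⟨y, rfl⟩, by rw [hΨ, hΨ]; exact (h2 _ _).1 h⟩
  refine ⟨_, inferInstance, ⟨Set.range (name x0), Ψ,
    regular_of_fs ((heq.fs () ()).congr fun t => ⟨fun h => ⟨h, h, rfl⟩, fun h => h.1⟩),
    fun x => ?_, heq, hsu⟩, fun n => ?_⟩
  · obtain ⟨y, rfl⟩ := h1.2 x
    exact ⟨_, ⟨y, rfl⟩, hΨ y⟩
  · refine le_csSup_of_le (Set.Finite.bddAbove ?_)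
      ⟨name x0 (false, ![[], List.replicate n x0, [], []]), ⟨_, rfl⟩, ?_, rfl⟩ ?_
    · refine ((List.finite_length_le _ n).image fun w => P0.minLen (Ψ w)).subset ?_
      rintro _ ⟨w, -, a, rfl⟩
      exact ⟨w, a, rfl⟩
    · rw [name, conv_length_le]
      rintro (_ | k)
      · simp [enc]
      · fin_cases k <;> simp [enc]
    · show _ ≤ P0.minLen (Ψ _)
      rw [hΨ]
      obtain ⟨u, a, b⟩ := P0.surj (φ (false, ![[], List.replicate n x0, [], []]))
      obtain ⟨v, c, d, e⟩ := Nat.sInf_mem (s := {k | ∃ v ∈ P0.L,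
        P0.ψ v = φ (false, ![[], List.replicate n x0, [], []]) ∧ v.length = k}) ⟨_, u, a, b, rfl⟩
      have := h3 n (v.map fun a => (a, false)) (by simpa only [L, lift] using c)
        (by simpa only [ψ, lift] using d)
      rw [List.length_map, e] at this
      exact this

end Pool.Agent.Results.MP_0022d4_lc.Yes
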